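import Pool.Agent.Helper74.UB.Goals4

/-!
# Packet UB-ROUTET (MP_cd9ac2_co): the upper route
-/

namespace Pool.Agent.Helper22.UB

open Finset Equiv Helper28.VF Helper74.UB
open scoped Classical

/-- Following `nx` until `w`. -/
lemma walk {V : Type} (nx : V → V) (pot : V → ℕ) (w : V) (Φ : ℕ)
    (hd : ∀ v, pot v < Φ → v ≠ w → pot (nx v) < pot v) :
    ∀ (m : ℕ) (x : V), pot x = m → m < Φ → ∃ n, nx^[n] x = w ∧ (∀ i < n, nx^[i] x ≠ w) ∧
      ∀ i, i ≤ n → pot (nx^[i] x) + i ≤ pot x := by
  intro m
  induction m using Nat.strong_induction_on with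
  | _ m ih =>
    intro x hx hm
    by_cases hxw : x = w
    · refine ⟨0, by simpa using hxw, fun i hi => absurd hi (by omega), fun i hi => ?_⟩
      have : i = 0 := by omega
      subst this
      simp
    · have h1 := hd x (by omega) hxw
      obtain ⟨n, hn1, hn2, hn3⟩ := ih (pot (nx x)) (by omega) (nx x) rfl (by omega)
      refine ⟨n + 1, ?_, ?_, ?_⟩
      · rw [Function.iterate_succ_apply]; exact hn1
      · intro i hi
        rcases i with _ | j
        · simpa using hxw
        · rw [Function.iterate_succ_apply]; exact hn2 j (by omega)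
      · intro i hi
        rcases i with _ | j
        · simp
        · rw [Function.iterate_succ_apply]
          have := hn3 j (by omega)
          omega

/-- **ROUTET** -/
theorem routet (hPot : StmtPot) (hBase : StmtBaseF) (hSq : StmtSq) (hCone : StmtConeAd)
    (hLay : StmtLayAd) (hTp : StmtTpF) : StmtRouteT := by
  intro K h V D E F E' F' _ _ _ _ _ _ L f M dE dW dU dN I M' y0 y1 c v₀ A Q hB T X w hw hX hT
  obtain ⟨pot, nx, p0, pnx, pf, pcap, plow, phigh, plip⟩ := hPot K h V L f hB.host w hw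
  obtain ⟨b1, b2, b3, b4, b5, b6, b7, b8, b9⟩ :=
    hBase K h V D E F E' F' L f M dE dW dU dN I M' y0 y1 c v₀ A Q hB
  have hLA := (hLay V D E F L M dE dW dU dN hB.host.ax hB.lm).1
  obtain ⟨c1, c2, c3, -, -, -⟩ := hCone D V E F E' F' M I M' hB.cone
  have had : ∀ u v, L.adj u v → Ad M' (Sum.inl u) (Sum.inl v) :=
    fun u v hh => (c1 u v).2 ((hLA u v).2 hh)
  have had' : ∀ u v, Ad M' (Sum.inl u) (Sum.inl v) → L.adj u v :=
    fun u v hh => (hLA u v).1 ((c1 u v).1 hh)
  have hrow : ∀ u v, L.adj u v → L.row v ≤ L.row u + 1 ∧ L.row u ≤ L.row v + 1 := by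
    intro u v hh
    rcases hh with hh | hh | hh | hh
    · have := hB.host.ax.row_e u
      rw [hh]; omega
    · have := hB.host.ax.row_e v
      rw [hh]; omega
    · have := hB.host.ax.up_row u v hh
      omega
    · have := hB.host.ax.up_row v u hh
      omega
  have frow : ∀ (r : ℤ) i, 0 ≤ r → r ≤ h → L.row (f r i) = r := by
    intro r i h0 h1
    lift r to ℕ using h0
    exact hB.host.flat.row r i (Nat.zero_le _) (by exact_mod_cast h1)
  have pf' : ∀ (r : ℤ) i, 0 ≤ r → r < h → nx (f r i) = f (r + 1) i := by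
    intro r i h0 h1
    lift r to ℕ using h0
    exact pf r i (Nat.zero_le _) (by exact_mod_cast h1)
  have fup : ∀ (r : ℤ) i k, 0 ≤ r → r < h → Even r → (L.up (f r i) k ↔ k = f (r + 1) i) := by
    intro r i k h0 h1 h2
    lift r to ℕ using h0
    exact hB.host.flat.upS r i k (Nat.zero_le _) (by exact_mod_cast h1)
      (by exact_mod_cast h2)
  have hy0 : 0 ≤ y0 := hB.rng.1
  have hy01 : y0 ≤ y1 := by
    rcases hB.start with h1 | h1 <;> omega
  have hy1h : y1 ≤ h := hB.rng.2
  -- facts on tp
  have htp1 : ∀ s, y0 ≤ tp L.row y0 (A s) := fun s => (hTp V _ L.row y0 (A s)).1.1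
  have htp2 : ∀ s v, Sum.inl v ∈ A s → L.row v ≤ tp L.row y0 (A s) :=
    fun s v hv => (hTp V _ L.row y0 (A s)).1.2.1 v hv
  have htp3 : ∀ s, tp L.row y0 (A s) = y0 ∨ ∃ v, Sum.inl v ∈ A s ∧ L.row v = tp L.row y0 (A s) :=
    fun s => (hTp V _ L.row y0 (A s)).1.2.2
  have htpm : ∀ s, tp L.row y0 (A s) ≤ tp L.row y0 (A (s + 1)) :=
    fun s => ((hTp V _ L.row y0 (A s)).2.2.1 _ (hB.fire.mono s)).1
  -- case (B) at time 0
  have hBI : ¬ (∀ q, ¬ I q) → y1 = y0 + 1 ∧ (∃ j, (∀ q, I q ↔ q = M.fc (dE (f y0 j)))) ∧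
      Even y0 ∧ ∃ q, v₀ = Sum.inr q := by
    intro hI
    rcases hB.start with h1 | h1
    · exact absurd h1.2.1 hI
    · exact ⟨h1.1, h1.2.2.1, h1.2.1, h1.2.2.2.1⟩
  -- no host vertex
  have hnoh : ∀ s, (¬ ∃ v, Sum.inl v ∈ A s) → s = 0 ∧ ¬ (∀ q, ¬ I q) := by
    intro s hs
    by_contra hcon
    have hor : (∀ q, ¬ I q) ∨ 1 ≤ s := by
      by_contra h2
      push Not at h2
      exact hcon ⟨by omega, fun h3 => by
        obtain ⟨q, hq⟩ := h2.1
        exact h3 q hq⟩
    obtain ⟨⟨v, hv, -⟩, -⟩ := b9 s hor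
    exact hs ⟨v, hv⟩
  -- host vertex in the top row
  have htop : ∀ s, (∃ v, Sum.inl v ∈ A s) →
      ∃ v, Sum.inl v ∈ A s ∧ L.row v = tp L.row y0 (A s) := by
    intro s hs
    by_cases hor : (∀ q, ¬ I q) ∨ 1 ≤ s
    · exact (b9 s hor).1
    · exfalso
      push Not at hor
      have hs0 : s = 0 := by omega
      subst hs0
      have hI : ¬ (∀ q, ¬ I q) := by
        obtain ⟨q, hq⟩ := hor.1
        exact fun h3 => h3 q hq
      obtain ⟨-, -, -, q, hq⟩ := hBI hI
      obtain ⟨v, hv⟩ := hs
      rw [hB.fire.zero, hq] at hv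
      simp at hv
  -- the potential
  obtain ⟨Φ, hΦ1, hΦ2, hΦ3⟩ : ∃ Φ : ℕ → ℕ, (∀ s v, Sum.inl v ∈ A s → Φ s ≤ pot v) ∧
      (∀ s, (∃ v, Sum.inl v ∈ A s) → ∃ v, Sum.inl v ∈ A s ∧ pot v = Φ s) ∧
      (∀ s, (¬ ∃ v, Sum.inl v ∈ A s) → (Φ s : ℤ) = 2 * K + 2 + h - y0) := by
    refine ⟨fun s => if (∃ v, Sum.inl v ∈ A s) then
      sInf {m | ∃ v, Sum.inl v ∈ A s ∧ pot v = m} else (2 * (K : ℤ) + 2 + h - y0).toNat, ?_, ?_, ?_⟩
    · intro s v hv
      have hh : ∃ v, Sum.inl v ∈ A s := ⟨v, hv⟩
      simp only [if_pos hh]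
      exact Nat.sInf_le ⟨v, hv, rfl⟩
    · intro s hh
      simp only [if_pos hh]
      have : sInf {m | ∃ v, Sum.inl v ∈ A s ∧ pot v = m} ∈
          {m | ∃ v, Sum.inl v ∈ A s ∧ pot v = m} := by
        apply Nat.sInf_mem
        obtain ⟨v, hv⟩ := hh
        exact ⟨pot v, v, hv, rfl⟩
      exact this
    · intro s hh
      simp only [if_neg hh]
      rw [Int.toNat_of_nonneg]
      omega
  have hΦt : ∀ s, tp L.row y0 (A s) < h → (Φ s : ℤ) = 2 * K + 2 + h - tp L.row y0 (A s) := by
    intro s hs
    by_cases hh : ∃ v, Sum.inl v ∈ A s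
    · obtain ⟨v, hv, hvr⟩ := htop s hh
      obtain ⟨u, hu, hur⟩ := hΦ2 s hh
      have e1 := plow v (by omega)
      have e2 := plow u (by have := htp2 s u hu; omega)
      have e3 := hΦ1 s v hv
      have e4 := htp2 s u hu
      omega
    · have e1 := hΦ3 s hh
      rcases htp3 s with e2 | ⟨v, hv, -⟩
      · rw [e2]; exact e1
      · exact absurd ⟨v, hv⟩ hh
  have hΦh : ∀ s, (h : ℤ) ≤ tp L.row y0 (A s) → Φ s ≤ 2 * K + 2 := by
    intro s hs
    by_cases hh : ∃ v, Sum.inl v ∈ A s
    · obtain ⟨v, hv, hvr⟩ := htop s hh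
      exact (hΦ1 s v hv).trans (phigh v (by omega))
    · exfalso
      obtain ⟨-, hI⟩ := hnoh s hh
      obtain ⟨e1, -⟩ := hBI hI
      rcases htp3 s with e2 | ⟨v, hv, -⟩
      · omega
      · exact absurd ⟨v, hv⟩ hh
  -- low potential means high row
  have hR : ∀ s u, pot u < Φ s → min (tp L.row y0 (A s) + 1) h ≤ L.row u := by
    intro s u hu
    by_contra hcon
    push Not at hcon
    have hrh : L.row u < h := lt_of_lt_of_le hcon (min_le_right _ _)
    have hrt : L.row u < tp L.row y0 (A s) + 1 := lt_of_lt_of_le hcon (min_le_left _ _)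
    have e1 := plow u hrh
    by_cases ht : tp L.row y0 (A s) < h
    · have e2 := hΦt s ht
      omega
    · have e2 := hΦh s (by omega)
      omega
  have hR0 : ∀ s u, pot u < Φ s → 0 ≤ L.row u := by
    intro s u hu
    have e1 := hR s u hu
    have e2 := htp1 s
    have e3 : (0 : ℤ) ≤ min (tp L.row y0 (A s) + 1) h := le_min (by omega) (by omega)
    omega
  have hC : ∀ s u, tp L.row y0 (A s) < h → tp L.row y0 (A s) < L.row u → pot u < Φ s := by
    intro s u ht hu
    have e2 := hΦt s ht
    by_cases hrh : L.row u < h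
    · have e1 := plow u hrh
      omega
    · have e1 := phigh u (by omega)
      omega
  -- one step of nx
  have hstep : ∀ s x, pot x < Φ s → x ≠ w →
      min (tp L.row y0 (A s) + 2) (h + 1) ≤ L.row (nx x) := by
    intro s x hx hxw
    have e1 := hR s x hx
    have e0 := hR0 s x hx
    by_cases hrh : L.row x < h
    · obtain ⟨i, hi⟩ := hB.host.flat.surj x e0 hrh.le
      have e2 := pf' (L.row x) i e0 hrh
      rw [hi] at e2
      have e3 := frow (L.row x + 1) i (by omega) (by omega)
      rw [e2, e3]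
      rcases le_total (tp L.row y0 (A s) + 1) (h : ℤ) with e4 | e4
      · rw [min_eq_left e4] at e1
        exact (min_le_left _ _).trans (by omega)
      · rw [min_eq_right e4] at e1
        omega
    · have e2 := pcap x (by omega) hxw
      exact (min_le_right _ _).trans e2
  -- the walk
  have hwalk : ∀ s x, pot x < Φ s → ∃ (n : ℕ) (p : ℕ → V), p 0 = x ∧ p n = w ∧
      (∀ i < n, L.adj (p i) (p (i + 1))) ∧ (∀ i ≤ n, pot (p i) + i ≤ pot x) ∧
      (∀ i, 1 ≤ i → i ≤ n → min (tp L.row y0 (A s) + 2) (h + 1) ≤ L.row (p i)) := by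
    intro s x hx
    obtain ⟨n, hn1, hn2, hn3⟩ := walk nx pot w (Φ s)
      (fun v hv hvw => (pnx v (hR0 s v hv) hvw).2) (pot x) x rfl hx
    refine ⟨n, fun i => nx^[i] x, rfl, hn1, ?_, hn3, ?_⟩
    · intro i hi
      have e1 := hn3 i hi.le
      have e2 := pnx (nx^[i] x) (hR0 s _ (by omega)) (hn2 i hi)
      simp only [Function.iterate_succ_apply']
      exact e2.1
    · intro i h1 hi
      obtain ⟨j, rfl⟩ : ∃ j, i = j + 1 := ⟨i - 1, by omega⟩
      have e1 := hn3 j (by omega)
      simp only [Function.iterate_succ_apply']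
      exact hstep s _ (by omega) (hn2 j (by omega))
  -- the main step
  have main : ∀ s, ∃ (z : VC V I) (n : ℕ) (p : ℕ → VC V I), s < T →
      z ∈ A s ∧ Ad M' z (p 0) ∧ (∀ i < n, Ad M' (p i) (p (i + 1))) ∧ p n ∈ X ∧
      (∀ i ≤ n, p i ∉ A s) ∧
      ((p 0 ∈ A (s + 1) ∧ Φ (s + 1) < Φ s) ∨
        (p 0 ∈ Q s ∧ Φ (s + 1) ≤ Φ s ∧ (∀ i ≤ n, p i ∉ A (s + 1)) ∧
          ∀ i, 1 ≤ i → i ≤ n → ∀ u, Ad M' (p i) u → u ∉ A (s + 1))) ∧
      (∀ i, 1 ≤ i → i ≤ n → ∃ v, p i = Sum.inl v ∧
        min (tp L.row y0 (A s) + 2) (h + 1) ≤ L.row v) ∧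
      (p 0 ∈ Q s → tp L.row y0 (A s) < h →
        tp L.row y0 (A (s + 1)) = tp L.row y0 (A s) ∧
        ∃ i, p 0 = Sum.inl (f (tp L.row y0 (A s) + 1) i) ∧
          ((∀ q, ¬ I q) ∨ 1 ≤ s → Sum.inl (f (tp L.row y0 (A s)) i) ∈ A s)) ∧
      (p 0 ∈ Q s → ∃ v, p 0 = Sum.inl v ∧ min (tp L.row y0 (A s) + 1) (h + 1) ≤ L.row v) := by
    intro s
    by_cases hsT : s < T
    swap
    · exact ⟨v₀, 0, fun _ => v₀, fun hh => absurd hh hsT⟩
    by_cases hcase : ∃ v, Sum.inl v ∈ A (s + 1) ∧ pot v < Φ s
    · -- case 1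
      obtain ⟨v1, hv1, hv1p⟩ := hcase
      obtain ⟨v, hv, hvp⟩ := hΦ2 (s + 1) ⟨v1, hv1⟩
      have hlt : pot v < Φ s := by
        have := hΦ1 (s + 1) v1 hv1
        omega
      have hvA : Sum.inl v ∉ A s := fun hh => by
        have := hΦ1 s v hh
        omega
      obtain ⟨z, hz, hzad⟩ : ∃ u ∈ A s, Ad M' u (Sum.inl v) := by
        rcases hB.fire.new s _ hv with hh | hh
        · exact absurd hh hvA
        · exact hh
      obtain ⟨n, p, q0, q1, q2, q3, q4⟩ := hwalk s v hlt
      have hnQ : Sum.inl (p 0) ∉ Q s := by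
        intro hh
        rw [q0] at hh
        exact Finset.disjoint_left.1 (hB.fire.disj s (s + 1)) hh hv
      refine ⟨z, n, fun i => Sum.inl (p i), fun _ => ⟨hz, ?_, ?_, ?_, ?_, ?_, ?_, ?_, ?_⟩⟩
      · simpa only [q0] using hzad
      · intro i hi
        exact had _ _ (q2 i hi)
      · simpa only [q1] using hX
      · intro i hi hh
        have e1 := hΦ1 s _ hh
        have e2 := q3 i hi
        omega
      · left
        refine ⟨by simpa only [q0] using hv, by omega⟩
      · intro i h1 hi
        exact ⟨p i, rfl, q4 i h1 hi⟩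
      · intro hh
        exact absurd hh hnQ
      · intro hh
        exact absurd hh hnQ
    · -- case 2
      have hcase' : ∀ u, Sum.inl u ∈ A (s + 1) → Φ s ≤ pot u := by
        intro u hu
        by_contra hcon
        exact hcase ⟨u, hu, by omega⟩
      have hteq : tp L.row y0 (A s) < h → tp L.row y0 (A (s + 1)) = tp L.row y0 (A s) := by
        intro ht
        apply le_antisymm _ (htpm s)
        rcases htp3 (s + 1) with e1 | ⟨u, hu, hur⟩
        · rw [e1]; exact htp1 s
        · rw [← hur]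
          by_contra hcon
          push Not at hcon
          have e2 := hC s u ht hcon
          have e3 := hcase' u hu
          omega
      have hΦle : Φ (s + 1) ≤ Φ s := by
        by_cases hh : ∃ v, Sum.inl v ∈ A s
        · obtain ⟨v, hv, hvp⟩ := hΦ2 s hh
          have := hΦ1 (s + 1) v (hB.fire.mono s hv)
          omega
        · obtain ⟨hs0, hI⟩ := hnoh s hh
          have ht : tp L.row y0 (A s) < h := by
            obtain ⟨e1, -⟩ := hBI hI
            rcases htp3 s with e2 | ⟨v, hv, -⟩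
            · omega
            · exact absurd ⟨v, hv⟩ hh
          have e1 := hteq ht
          have e2 := hΦt s ht
          have e3 := hΦt (s + 1) (by omega)
          omega
      -- the first vertex
      obtain ⟨z, x, hz, hzx, hxp, hx1, hx2⟩ : ∃ (z : VC V I) (x : V), z ∈ A s ∧
          Ad M' z (Sum.inl x) ∧ pot x < Φ s ∧
          (tp L.row y0 (A s) < h → ∃ i, x = f (tp L.row y0 (A s) + 1) i ∧
            ((∀ q, ¬ I q) ∨ 1 ≤ s → Sum.inl (f (tp L.row y0 (A s)) i) ∈ A s)) ∧
          min (tp L.row y0 (A s) + 1) (h + 1) ≤ L.row x := by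
        by_cases hh : ∃ v, Sum.inl v ∈ A s
        · obtain ⟨v, hv, hvp⟩ := hΦ2 s hh
          have hvw : v ≠ w := fun e => hT s hsT.le (e ▸ hv)
          by_cases ht : tp L.row y0 (A s) < h
          · have e1 := hΦt s ht
            have hrh : L.row v < h := by
              have := htp2 s v hv
              omega
            have e2 := plow v hrh
            have hrv : L.row v = tp L.row y0 (A s) := by omega
            have hrv0 : 0 ≤ L.row v := by
              have := htp1 s
              omega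
            obtain ⟨i, hi⟩ := hB.host.flat.surj v hrv0 hrh.le
            have e3 := pf' (L.row v) i hrv0 hrh
            rw [hi] at e3
            have e4 := pnx v hrv0 hvw
            refine ⟨Sum.inl v, nx v, hv, had _ _ e4.1, by omega, fun _ => ⟨i, ?_, fun _ => ?_⟩, ?_⟩
            · rw [e3, hrv]
            · rw [← hrv, hi]; exact hv
            · have e5 := frow (L.row v + 1) i (by omega) (by omega)
              rw [e3, e5, hrv]
              exact min_le_left _ _
          · have e1 := hΦh s (by omega)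
            have hrh : (h : ℤ) ≤ L.row v := by
              by_contra hcon
              have := plow v (by omega)
              omega
            have e4 := pnx v (by omega) hvw
            have e5 := pcap v hrh hvw
            exact ⟨Sum.inl v, nx v, hv, had _ _ e4.1, by omega, fun h' => absurd h' ht,
              (min_le_right _ _).trans e5⟩
        · obtain ⟨hs0, hI⟩ := hnoh s hh
          obtain ⟨e1, ⟨j, hj⟩, e2, q, hq⟩ := hBI hI
          have ht : tp L.row y0 (A s) = y0 := by
            rcases htp3 s with e2 | ⟨v, hv, -⟩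
            · exact e2
            · exact absurd ⟨v, hv⟩ hh
          have hup : L.up (f y0 j) (f (y0 + 1) j) :=
            (fup y0 j _ hy0 (by omega) e2).2 rfl
          have hrr := frow (y0 + 1) j (by omega) (by omega)
          refine ⟨v₀, f (y0 + 1) j, ?_, ?_, ?_, ?_, ?_⟩
          · rw [hs0, hB.fire.zero]; simp
          · rw [hq]
            rw [(c2 q (f (y0 + 1) j)).1]
            refine ⟨dN (f y0 j) (f (y0 + 1) j), ?_, hB.lm.vN _ _ hup⟩
            have e3 := (hSq K h V D E F L f M dE dW dU dN hB.host hB.lm y0 j hy0 (by omega) e2).2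
              (dN (f y0 j) (f (y0 + 1) j))
            rw [e3.2 (Or.inr (Or.inr (Or.inr rfl)))]
            exact ((hj q.1).1 q.2).symm
          · exact hC s _ (by omega) (by omega)
          · intro _
            refine ⟨j, by rw [ht], ?_⟩
            intro hor
            exfalso
            rcases hor with hor | hor
            · exact hI hor
            · omega
          · rw [ht, hrr]
            exact min_le_left _ _
      obtain ⟨n, p, q0, q1, q2, q3, q4⟩ := hwalk s x hxp
      have hout : ∀ i ≤ n, Sum.inl (p i) ∉ A (s + 1) := by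
        intro i hi hh
        have e1 := hcase' _ hh
        have e2 := q3 i hi
        omega
      have hQ : Sum.inl x ∈ Q s := by
        rcases hB.fire.spread s z hz _ hzx with hh | hh
        · exact absurd hh (by
            have := hout 0 (Nat.zero_le _)
            rwa [q0] at this)
        · exact hh
      refine ⟨z, n, fun i => Sum.inl (p i), fun _ => ⟨hz, ?_, ?_, ?_, ?_, ?_, ?_, ?_, ?_⟩⟩
      · simpa only [q0] using hzx
      · intro i hi
        exact had _ _ (q2 i hi)
      · simpa only [q1] using hX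
      · intro i hi hh
        exact hout i hi (hB.fire.mono s hh)
      · right
        refine ⟨by simpa only [q0] using hQ, hΦle, hout, ?_⟩
        intro i h1 hi u hu
        have e4 := q4 i h1 hi
        have e3 := q3 i hi
        rcases u with u | q
        · have e5 := had' _ _ hu
          have e6 := hrow _ _ e5
          intro hh
          have e7 := hcase' u hh
          by_cases ht : tp L.row y0 (A s) < h
          · have e8 : tp L.row y0 (A s) < L.row u := by
              have e9 : min (tp L.row y0 (A s) + 2) ((h : ℤ) + 1) ≥ tp L.row y0 (A s) + 2 :=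
                le_min le_rfl (by omega)
              omega
            have := hC s u ht e8
            omega
          · have e9 : min (tp L.row y0 (A s) + 2) ((h : ℤ) + 1) ≥ h + 1 :=
              le_min (by omega) le_rfl
            have := plip (p i) u (by omega) (by omega) e5
            omega
        · exfalso
          obtain ⟨d, hd1, hd2⟩ := (c2 q (p i)).2.1 hu
          have hId : I (M.fc d) := by rw [hd1]; exact q.2
          obtain ⟨-, hst, -⟩ := b4 d hId
          have e5 := hst.1 d rfl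
          rw [hd2] at e5
          obtain ⟨e6, -⟩ := hBI (fun h3 => h3 _ hId)
          have e7 := htp1 s
          have e8 : min (tp L.row y0 (A s) + 2) ((h : ℤ) + 1) ≥ y0 + 2 :=
            le_min (by omega) (by omega)
          omega
      · intro i h1 hi
        exact ⟨p i, rfl, q4 i h1 hi⟩
      · intro _ ht
        obtain ⟨i, hi1, hi2⟩ := hx1 ht
        exact ⟨hteq ht, i, by simp only [q0]; rw [hi1], hi2⟩
      · intro _
        exact ⟨p 0, rfl, by rw [q0]; exact hx2⟩
  choose z n p hP using main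
  refine ⟨⟨Φ, z, n, p, fun s hs => (hP s hs).1, fun s hs => (hP s hs).2.1,
    fun s hs => (hP s hs).2.2.1, fun s hs => (hP s hs).2.2.2.1, fun s hs => (hP s hs).2.2.2.2.1,
    fun s hs => (hP s hs).2.2.2.2.2.1⟩, ?_, ?_, ?_, ?_⟩
  · intro s _ ht
    exact hΦt s ht
  · intro s hs i h1 hi
    exact (hP s hs).2.2.2.2.2.2.1 i h1 hi
  · intro s hs hq ht
    exact (hP s hs).2.2.2.2.2.2.2.1 hq ht
  · intro s hs hq
    exact (hP s hs).2.2.2.2.2.2.2.2 hq

end Pool.Agent.Helper22.UB
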